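import Pool.Agent.H60.LQ.Cfg
import Pool.Agent.H64.KTH.TLN

/-!
# Rows TLN2 (two lines) and ALL2 (entropy of the family of the lines 1 given `O`)
-/

set_option autoImplicit false

namespace Pool.Agent.H64.LQ

open Finset Real
open Pool.Agent.H49.Ent Pool.Agent.H32.Dense Pool.KTH
open Pool.Agent.H64.KTH

variable {d J : ℕ}

lemma gp_nonneg (J : ℕ) (x y : ℤ) : 0 ≤ gp J x y := by
  unfold gp
  apply Real.log_nonneg
  have : (0 : ℝ) ≤ 2 ^ J / max 1 |(x : ℝ) - y| := by positivity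
  linarith

lemma gp_comm (J : ℕ) (x y : ℤ) : gp J x y = gp J y x := by
  unfold gp
  rw [abs_sub_comm]

lemma eg_nonneg (F : Cf d J) (x y : F.Ω → ℤ) : 0 ≤ F.eg x y :=
  Ex_nonneg F.hq fun _ _ => gp_nonneg _ _ _

lemma eg_ts_le (F : Cf d J) : F.eg F.t F.s ≤ LQ.en F := by
  unfold LQ.en
  have h1 := eg_nonneg F F.t₁ F.t
  have h2 := eg_nonneg F F.t₁ F.s
  have h3 := eg_nonneg F F.r F.t
  have h4 := eg_nonneg F F.r F.s
  have h5 := eg_nonneg F F.r F.t₁
  have h6 := eg_nonneg F F.tr F.s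
  have h7 := eg_nonneg F F.ta F.s
  have h8 := eg_nonneg F F.ta F.tr
  have h9 := eg_nonneg F F.ta F.TO
  linarith

lemma log_le (δ : ℝ) (hδ : 0 < δ) : ∃ C : ℝ, 0 ≤ C ∧ ∀ J : ℕ,
    Real.log ((J : ℝ) + 2) ≤ δ * J + C := by
  obtain ⟨J₀, h⟩ := one_add_log_le δ hδ
  refine ⟨Real.log ((J₀ : ℝ) + 2), Real.log_nonneg (by linarith [Nat.cast_nonneg (α := ℝ) J₀]),
    fun J => ?_⟩
  have h0 : 0 ≤ Real.log ((J₀ : ℝ) + 2) :=
    Real.log_nonneg (by linarith [Nat.cast_nonneg (α := ℝ) J₀])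
  rcases le_total J₀ J with h1 | h1
  · linarith [h J h1]
  · have h2 : Real.log ((J : ℝ) + 2) ≤ Real.log ((J₀ : ℝ) + 2) := by
      apply Real.log_le_log (by positivity)
      have : (J : ℝ) ≤ J₀ := by exact_mod_cast h1
      linarith
    have : 0 ≤ δ * (J : ℝ) := by positivity
    linarith

end Pool.Agent.H64.LQ

namespace Pool.LQ

open Finset Real
open Pool.Agent.H49.Ent Pool.Agent.H32.Dense Pool.KTH
open Pool.Agent.H64.KTH Pool.Agent.H64.LQ

theorem tln2 (h1 : SEP2Stmt) (h2 : FCK2Stmt) : TLN2Stmt := by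
  intro d hd
  obtain ⟨C, hC, hS⟩ := (h1 d hd).1
  refine ⟨⟨C, hC, fun J F L sb K G hF => ?_⟩, fun ε hε => ?_⟩
  · have a1 : CH F.q (fun w => (F.v01 w, F.t w)) F.Z ≤
        CH F.q (fun w => (F.t w, F.v01 w)) F.Z := by
      refine CH_mono_left F.hq fun ω ω' _ _ h => ?_
      simp only [Prod.mk.injEq] at h ⊢
      tauto
    rw [CH_chain F.hq F.t F.v01] at a1
    have a2 := hS J F
    have a3 := hF.cp
    have a4 : C * (en F + 1 + Real.log (J + 2)) ≤ C * (G + 1 + Real.log (J + 2)) :=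
      mul_le_mul_of_nonneg_left (by linarith [hF.ge]) hC
    simp only at a2 ⊢
    linarith
  · obtain ⟨C₁, hC₁, h₁⟩ := h2 d hd (ε / 2) (by positivity)
    have hl : 0 < Real.log 2 := Real.log_pos (by norm_num)
    obtain ⟨C₂, hC₂, h₂⟩ := log_le (ε * Real.log 2 / (2 * (C + 1))) (by positivity)
    refine ⟨C₁ + C + C * C₂, by positivity, fun J F L sb K G hF => ?_⟩
    have b1 : C * Real.log (J + 2) ≤ ε / 2 * lm J + C * C₂ := by
      have e1 := mul_le_mul_of_nonneg_left (h₂ J) hC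
      have e2 : C * (ε * Real.log 2 / (2 * (C + 1)) * J) ≤ ε / 2 * lm J := by
        have : C * (ε * Real.log 2 / (2 * (C + 1)) * J) = C / (C + 1) * (ε / 2 * lm J) := by
          unfold lm
          field_simp
        rw [this]
        have h3 : 0 ≤ ε / 2 * lm J := by unfold lm; positivity
        calc C / (C + 1) * (ε / 2 * lm J) ≤ 1 * (ε / 2 * lm J) := by
              refine mul_le_mul_of_nonneg_right ?_ h3
              rw [div_le_one (by positivity)]
              linarith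
          _ = ε / 2 * lm J := one_mul _
      rw [mul_add] at e1
      linarith
    have b2 := h₁ J F.Ω F.ζ F.q F.Z F.v₁ F.v₀ F.u₁ F.u₀ F.t F.s K
      F.hq F.h1 (by simpa using F.hv₁) (by simpa using F.hv₀) F.hu₁ F.hu₀
      (by simpa using F.ht) (by simpa using F.hs) (fun w hw => (F.cross01 w hw).symm) (by
        have c1 := hF.cs
        have c2 : CH F.q F.s (fun w => (F.v01 w, F.t w, F.Z w)) ≤
            CH F.q F.s (fun w => ((F.v₁ w, F.v₀ w), F.Z w)) := by
          refine CH_mono_cond F.hq fun ω ω' _ _ h => ?_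
          simp only [Prod.mk.injEq, Cf.v01] at h ⊢
          tauto
        linarith)
    have b3 : Ex F.q (fun w => gp J (F.s w) (F.t w)) ≤ G := by
      have e1 : Ex F.q (fun w => gp J (F.s w) (F.t w)) = F.eg F.t F.s := by
        unfold Cf.eg
        congr 1
        funext w
        exact gp_comm _ _ _
      rw [e1]
      exact (eg_ts_le F).trans hF.ge
    have b4 : C₁ * (1 + Ex F.q (fun w => gp J (F.s w) (F.t w))) ≤ C₁ * (1 + G) :=
      mul_le_mul_of_nonneg_left (by linarith) hC₁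
    have b5 := hS J F
    have b6 : C * (en F + 1 + Real.log (J + 2)) ≤ C * (G + 1 + Real.log (J + 2)) :=
      mul_le_mul_of_nonneg_left (by linarith [hF.ge]) hC
    simp only at b5 ⊢
    have a3 := hF.cl
    have b7 : 0 ≤ C * C₂ * G := by have := hF.G0; positivity
    have b8 : C * (G + 1 + Real.log (J + 2)) = C * (G + 1) + C * Real.log (J + 2) := by ring
    have b9 : (C₁ + C + C * C₂) * (G + 1) = C₁ * (1 + G) + C * (G + 1) + C * C₂ * G + C * C₂ := by
      ring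
    -- the chain rule
    have c1 : CH F.q (fun w => (F.v3 w, F.t w, F.s w)) F.Z ≤
        CH F.q (fun w => (F.t w, F.v₀ w, F.s w, F.v12 w)) F.Z := by
      refine CH_mono_left F.hq fun ω ω' _ _ h => ?_
      simp only [Prod.mk.injEq, Cf.v12, Cf.v3] at h ⊢
      tauto
    rw [CH_chain F.hq F.t (fun w => (F.v₀ w, F.s w, F.v12 w)),
      CH_chain F.hq F.v₀ (fun w => (F.s w, F.v12 w)), CH_chain F.hq F.s F.v12] at c1
    have c2 : CH F.q F.s (fun w => (F.v12 w, F.Z w)) ≤ F.qs := by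
      refine CH_mono_cond F.hq fun ω ω' _ _ h => ?_
      simp only [Prod.mk.injEq, Cf.v12] at h ⊢
      tauto
    have c3 : CH F.q F.t (fun w => ((F.v₀ w, F.s w, F.v12 w), F.Z w)) ≤
        CH F.q F.t (fun w => (F.v01 w, F.Z w)) := by
      refine CH_mono_cond F.hq fun ω ω' _ _ h => ?_
      simp only [Prod.mk.injEq, Cf.v12, Cf.v01] at h ⊢
      tauto
    have c4 : CH F.q F.v₀ (fun w => ((F.s w, F.v12 w), F.Z w)) ≤
        CH F.q F.v₀ (fun w => (F.v₁ w, pp J F.u₀ F.v₀ F.s w, F.Z w)) := by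
      refine CH_mono_cond F.hq fun ω ω' a b h => ?_
      simp only [Prod.mk.injEq, Cf.v12] at h ⊢
      obtain ⟨⟨h1, h2, h3⟩, h4⟩ := h
      refine ⟨h2, ?_, h4⟩
      unfold pp
      rw [F.cross02 ω a, F.cross02 ω' b, h1, h3, F.hu₂ ω ω' a b (by simp only [h3, h4])]
    linarith

theorem all2 (h1 : TLN2Stmt) : ALL2Stmt := by
  intro d hd
  obtain ⟨C, hC, hT⟩ := (h1 d hd).1
  refine ⟨C, hC, fun J F L sb K G hF => ?_⟩
  have a1 := hT J F L sb K G hF
  simp only at a1 ⊢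
  have e1 : CH F.q (fun w => (F.O w, F.v01 w)) F.Z =
      CH F.q (fun w => (F.v₀ w, F.v₁ w, F.O w)) F.Z := by
    refine CH_congr F.hq (fun ω ω' _ _ h => ?_) (fun ω ω' _ _ h => ?_)
      (fun ω ω' _ _ h => h) (fun ω ω' _ _ h => h)
    · simp only [Prod.mk.injEq, Cf.v01] at h ⊢
      tauto
    · simp only [Prod.mk.injEq, Cf.v01] at h ⊢
      tauto
  rw [CH_chain F.hq F.O F.v01, CH_chain F.hq F.v₀ (fun w => (F.v₁ w, F.O w)),
    CH_chain F.hq F.v₁ F.O] at e1
  have e3 : CH F.q F.v₀ (fun w => ((F.v₁ w, F.O w), F.Z w)) = F.et₁ := by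
    refine CH_congr F.hq (fun ω ω' _ _ h => ?_) (fun ω ω' _ _ h => ?_)
      (fun ω ω' _ _ h => ?_) (fun ω ω' _ _ h => ?_)
    all_goals
      simp only [Prod.mk.injEq] at h ⊢
      tauto
  have e4 : CH F.q F.v₁ (fun w => (F.O w, F.Z w)) = F.FL.L := rfl
  have e5 : CH F.q F.O F.Z = F.xh := rfl
  have e6 : gO F = 2 * lm J - F.y01 - CH F.q F.O (fun w => (F.v01 w, F.Z w)) := rfl
  linarith

end Pool.LQ
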