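import Pool.Agent.H60.LQ.Two

/-!
# LQ0, row SPI3: the lines 2 given `Y` are spread
-/

set_option autoImplicit false

namespace Pool.LQ

open Finset Real
open Pool.Agent.H49.Ent Pool.Agent.H32.Dense Pool.KTH
open Pool.Agent.H24.KTH (dsv lvv lev cap Yf kp CAPStmt ONCStmt INFStmt)

theorem spi3 (h1 : INFStmt) : SPI3Stmt := by
  intro d N hN
  obtain ⟨C, hC⟩ := h1 d N hN
  refine ⟨|C|, abs_nonneg _, fun J F μ τ hS => ?_⟩
  intro Ω' _ q pr w hq hm hw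
  have hm' : Marg q F.q pr := hm
  have hsum : ∑ ω, q ω = 1 := by rw [hm'.sum, F.h1]
  have h2 := (hS Ω' q pr w hq hm' hw).2
  have h3 := hC J Ω' F.ζ (ℤ × (Fin d → ℤ)) q (fun ω => F.Z (pr ω)) (fun ω => F.v₂ (pr ω))
    (fun ω => F.Y (pr ω)) w hq hsum hw
  have h4 := hm'.CH F.v₂ F.Z
  have h5 := hm'.CH F.v₂ (fun ω => (F.Y ω, F.Z ω))
  have h6 := CH_chain F.hq F.v₂ F.Y F.Z
  have h7 : F.iy = CH F.q F.v₂ F.Z - CH F.q F.v₂ (fun ω => (F.Y ω, F.Z ω)) := by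
    unfold Cf.iy Cf.yh
    linarith
  have h8 := le_abs_self C
  show μ * (Ex q (fun ω => (w ω : ℝ)) / N * lm J) - (τ + F.iy + |C|) ≤
    CH q (fun ω => cap J (lev J N (w ω)) (F.v₂ (pr ω))) (fun ω => (w ω, (F.Y (pr ω), F.Z (pr ω))))
  linarith

end Pool.LQ
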